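import Pool.Agent.Helper23.XB.Final

/-!
# Project WR: the definitions used in the final statement

Delta_0 and Sigma_1 formulas, the cardinals omega_1 and omega_2 of a transitive set `M`, supercompact
cardinals of `M`, well-orders of the reals of `M`.
-/

set_option autoImplicit false

namespace Pool.Agent.Helper63.WR

open Pool.Agent.Helper23.XB
open Pool.Agent.Helper87.Sym (Fml cons Sat)

/-- Delta_0 formulas of the language of set theory: all quantifiers are bounded. -/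
inductive IsDelta0 : Fml → Prop
  | bot : IsDelta0 .bot
  | mem (i j : ℕ) : IsDelta0 (.mem i j)
  | eq (i j : ℕ) : IsDelta0 (.eq i j)
  | imp (φ ψ : Fml) : IsDelta0 φ → IsDelta0 ψ → IsDelta0 (.imp φ ψ)
  | ball (i : ℕ) (φ : Fml) : IsDelta0 φ → IsDelta0 (.all (.imp (.mem 0 (i + 1)) φ))

/-- Sigma_1 formulas: existential quantifiers, followed by a Delta_0 formula. -/
inductive IsSigma1 : Fml → Prop
  | delta0 (φ : Fml) : IsDelta0 φ → IsSigma1 φ
  | ex (φ : Fml) : IsSigma1 φ → IsSigma1 (.ex φ)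

/-- In `M`, the ordinal `d` is the cardinal successor of `c`: every nonempty element of `d` is the
image of `c`, and `d` is not. -/
structure IsSuccCardIn (M : Set ZFSet.{0}) (c d : ZFSet.{0}) : Prop where
  mem : d ∈ M
  ordinal : d.IsOrdinal
  lt : c ∈ d
  le : ∀ a ∈ d, a ≠ ∅ → ∃ f ∈ M, Onto c a f
  not : ∀ f ∈ M, ¬ Onto c d f

/-- `w2` is the second uncountable cardinal of `M`. -/
def IsOmega2In (M : Set ZFSet.{0}) (w2 : ZFSet.{0}) : Prop :=
  ∃ w1, IsSuccCardIn M ZFSet.omega w1 ∧ IsSuccCardIn M w1 w2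

/-- `p` is, in `M`, the set of the subsets of `lam` of cardinality less than `kap`. -/
def IsPklIn (M : Set ZFSet.{0}) (kap lam p : ZFSet.{0}) : Prop :=
  p ∈ M ∧ ∀ y, y ∈ p ↔ y ∈ M ∧ y ⊆ lam ∧ ∃ a ∈ kap, ∃ f ∈ M, Onto a y f

/-- `F` is, in `M`, a `kap`-complete fine normal ultrafilter on the set `p` of the subsets of `lam`
of cardinality less than `kap`. -/
structure IsFineNormalIn (M : Set ZFSet.{0}) (kap lam p F : ZFSet.{0}) : Prop where
  mem : F ∈ M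
  sub : ∀ x ∈ F, x ⊆ p
  up : ∀ x ∈ F, ∀ y ∈ M, x ⊆ y → y ⊆ p → y ∈ F
  ultra : ∀ x ∈ M, x ⊆ p → (x ∈ F ↔ p \ x ∉ F)
  complete : ∀ a ∈ kap, ∀ f ∈ M, ZFSet.IsFunc a F f →
    ∃ x ∈ F, ∀ y ∈ x, ∀ i ∈ a, ∀ z, ZFSet.pair i z ∈ f → y ∈ z
  fine : ∀ i ∈ lam, ∃ x ∈ F, ∀ y ∈ x, i ∈ y
  normal : ∀ f ∈ M, ZFSet.IsFunc p lam f → (∃ x ∈ F, ∀ y ∈ x, ∀ i, ZFSet.pair y i ∈ f → i ∈ y) →
    ∃ i ∈ lam, ∃ x ∈ F, ∀ y ∈ x, ZFSet.pair y i ∈ f

/-- `kap` is a supercompact cardinal in `M`. -/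
structure IsSupercompactIn (M : Set ZFSet.{0}) (kap : ZFSet.{0}) : Prop where
  mem : kap ∈ M
  card : IsCardIn M kap
  unc : ZFSet.omega ∈ kap
  super : ∀ lam ∈ M, lam.IsOrdinal → kap ⊆ lam →
    ∃ p F, IsPklIn M kap lam p ∧ IsFineNormalIn M kap lam p F

/-- `R` is a well-order of the reals of `M`, i.e. of the subsets of `omega` which are in `M`. Every
nonempty set of reals of `M` has a least element, also if the set is not in `M`. -/
structure IsWellOrderOfReals (M : Set ZFSet.{0}) (R : ZFSet.{0} → ZFSet.{0} → Prop) : Prop where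
  dom : ∀ x ∈ M, ∀ y ∈ M, R x y → x ⊆ ZFSet.omega ∧ y ⊆ ZFSet.omega
  irrefl : ∀ x ∈ M, ¬ R x x
  trans : ∀ x ∈ M, ∀ y ∈ M, ∀ z ∈ M, R x y → R y z → R x z
  total : ∀ x ∈ M, ∀ y ∈ M, x ⊆ ZFSet.omega → y ⊆ ZFSet.omega → x = y ∨ R x y ∨ R y x
  least : ∀ S : Set ZFSet.{0}, S ⊆ M → (∀ x ∈ S, x ⊆ ZFSet.omega) → S.Nonempty →
    ∃ x ∈ S, ∀ y ∈ S, y = x ∨ R x y

/-- The formula `φ(x, y, w)` defines in `M`, with the parameter `w2` for `w`, a well-order of the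
reals of `M`. -/
def DefinesWellOrder (φ : Fml) (M : Set ZFSet.{0}) (w2 : ZFSet.{0}) : Prop :=
  IsWellOrderOfReals M fun x y => Sat M φ (cons x (cons y (cons w2 fun _ => ∅)))

end Pool.Agent.Helper63.WR
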