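import Pool.Agent.Helper23.XB.DefsE
import Pool.Agent.Helper32.HB.Cho
import Pool.Agent.Helper32.HB.Pnt

/-!
# Project WR: a filter on generic fragments

`aeM P` is the filter on the generic fragments over `P` generated by the sets of the fragments that
satisfy countably many further requirements. All statements on the models are of the form
`∀ᶠ g in aeM P, Q g`.
-/

set_option autoImplicit false

namespace Pool.Agent.Helper63.WR

open Cardinal Filter Set Pool.Agent.Helper23.XB Pool.Agent.Helper33.HM Pool.Agent.Helper33.HMG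
open Pool.Agent.Helper32.HB
open Pool.Agent.Helper87.Sym (Fml cons Sat IsTransModelZF)

universe u

/-- Bundled generic fragments. -/
structure GG (P : Type u) [Preorder P] [OrderTop P] : Type (u + 2) where
  R : Type
  W : R → (ℕ → Nm P) → P → Nm P → Prop
  g : Gen W

namespace GG

variable {P : Type u} [Preorder P] [OrderTop P] (g : GG P)

/-- The names. -/
def N : Set (Nm P) := g.g.N

/-- The conditions. -/
def pc (k : ℕ) : P := g.g.pc k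

/-- The values of names. -/
noncomputable def val (τ : Nm P) : ZFSet.{0} := g.g.val τ

/-- The model. -/
def M : Set ZFSet.{0} := g.g.M

/-- The value `U` belongs to the generic ultrafilter. -/
def fc (U : RO P) : Prop := ∃ k, g.pc k ∈ U

/-- The requirement `W`. -/
def Rq (W : (ℕ → Nm P) → P → Nm P → Prop) : Prop :=
  ∀ t : List (Nm P), (∀ x ∈ t, x ∈ g.N) →
    ∃ k, (∃ x ∈ g.N, W (asg t) (g.pc k) x) ∨ ∀ q, q ≤ g.pc k → ∀ x, ¬ W (asg t) q x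

end GG

variable {P : Type u} [Preorder P] [OrderTop P]

/-- The filter of the requirements. -/
def aeM (P : Type u) [Preorder P] [OrderTop P] : Filter (GG P) where
  sets := {S | ∃ W : ℕ → (ℕ → Nm P) → P → Nm P → Prop, ∀ g : GG P, (∀ n, g.Rq (W n)) → g ∈ S}
  univ_sets := ⟨fun _ _ _ _ => True, fun _ _ => trivial⟩
  sets_of_superset := by
    rintro S T ⟨W, hW⟩ hST
    exact ⟨W, fun g hg => hST (hW g hg)⟩
  inter_sets := by
    rintro S T ⟨W, hW⟩ ⟨W', hW'⟩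
    refine ⟨fun n => if n % 2 = 0 then W (n / 2) else W' (n / 2), fun g hg => ⟨hW g ?_, hW' g ?_⟩⟩
    · intro n
      have h := hg (2 * n)
      have e1 : 2 * n % 2 = 0 := by omega
      have e2 : 2 * n / 2 = n := by omega
      simpa only [e1, e2, if_true] using h
    · intro n
      have h := hg (2 * n + 1)
      have e1 : ¬ (2 * n + 1) % 2 = 0 := by omega
      have e2 : (2 * n + 1) / 2 = n := by omega
      simpa only [e1, e2, if_false] using h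

theorem mem_aeM {S : Set (GG P)} : S ∈ aeM P ↔
    ∃ W : ℕ → (ℕ → Nm P) → P → Nm P → Prop, ∀ g : GG P, (∀ n, g.Rq (W n)) → g ∈ S := Iff.rfl

instance : CountableInterFilter (aeM P) := by
  constructor
  intro S hS h
  by_cases hne : S.Nonempty
  · obtain ⟨f, hf⟩ := hS.exists_eq_range hne
    subst hf
    have h' : ∀ n, ∃ W : ℕ → (ℕ → Nm P) → P → Nm P → Prop, ∀ g : GG P,
        (∀ k, g.Rq (W k)) → g ∈ f n := fun n => h (f n) (mem_range_self n)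
    choose W hW using h'
    refine ⟨fun n => W n.unpair.1 n.unpair.2, fun g hg => ?_⟩
    rintro _ ⟨n, rfl⟩
    refine hW n g fun k => ?_
    have := hg (Nat.pair n k)
    simpa only [Nat.unpair_pair] using this
  · rw [not_nonempty_iff_eq_empty.1 hne, sInter_empty]
    exact univ_mem

instance : NeBot (aeM P) := by
  refine ⟨fun h => ?_⟩
  have h1 : (∅ : Set (GG P)) ∈ aeM P := by rw [h]; exact mem_bot
  obtain ⟨W, hW⟩ := h1
  obtain ⟨R₁, W₁, g, -, hg, -⟩ := exists_point (P := P) (R := ℕ) (R' := Empty) W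
    (fun r => r.elim) (fun r => r.elim)
  exact hW ⟨R₁, W₁, g⟩ fun n => hg n

/-- The requirement `W` holds for almost all fragments. -/
theorem ae_rq (W : (ℕ → Nm P) → P → Nm P → Prop) : ∀ᶠ g in aeM P, g.Rq W :=
  ⟨fun _ => W, fun _ hg => hg 0⟩

/-- The names are closed under functions. -/
theorem ae_cl (F : (ℕ → Nm P) → Nm P) :
    ∀ᶠ g in aeM P, ∀ t : List (Nm P), (∀ x ∈ t, x ∈ g.N) → F (asg t) ∈ g.N := by
  filter_upwards [ae_rq fun v (_ : P) x => x = F v] with g hg t ht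
  obtain ⟨k, hk | hk⟩ := hg t ht
  · obtain ⟨x, hx, rfl⟩ := hk
    exact hx
  · exact absurd rfl (hk (g.pc k) le_rfl (F (asg t)))

theorem ae_cl0 (τ : Nm P) : ∀ᶠ g in aeM P, τ ∈ g.N := by
  filter_upwards [ae_cl fun _ => τ] with g hg
  exact hg [] (by simp)

theorem ae_cl1 (F : Nm P → Nm P) : ∀ᶠ g in aeM P, ∀ σ ∈ g.N, F σ ∈ g.N := by
  filter_upwards [ae_cl fun v => F (v 0)] with g hg σ hσ
  exact hg [σ] (by simpa using hσ)

theorem ae_cl2 (F : Nm P → Nm P → Nm P) : ∀ᶠ g in aeM P, ∀ σ ∈ g.N, ∀ τ ∈ g.N, F σ τ ∈ g.N := by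
  filter_upwards [ae_cl fun v => F (v 0) (v 1)] with g hg σ hσ τ hτ
  exact hg [σ, τ] (by simp [hσ, hτ])

theorem ae_cl3 (F : Nm P → Nm P → Nm P → Nm P) :
    ∀ᶠ g in aeM P, ∀ σ ∈ g.N, ∀ τ ∈ g.N, ∀ ρ ∈ g.N, F σ τ ρ ∈ g.N := by
  filter_upwards [ae_cl fun v => F (v 0) (v 1) (v 2)] with g hg σ hσ τ hτ ρ hρ
  exact hg [σ, τ, ρ] (by simp [hσ, hτ, hρ])

/-- Genericity: the set `W v` is met or avoided. -/
theorem ae_gen (W : (ℕ → Nm P) → P → Prop) : ∀ᶠ g in aeM P, ∀ t : List (Nm P),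
    (∀ x ∈ t, x ∈ g.N) → ∃ k, W (asg t) (g.pc k) ∨ ∀ q, q ≤ g.pc k → ¬ W (asg t) q := by
  filter_upwards [ae_rq fun v (p : P) _ => W v p] with g hg t ht
  obtain ⟨k, hk | hk⟩ := hg t ht
  · obtain ⟨x, _, hx⟩ := hk
    exact ⟨k, Or.inl hx⟩
  · exact ⟨k, Or.inr fun q hq => hk q hq emptyN⟩

/-- Genericity with a witness, one parameter. -/
theorem ae_rq1 (W : Nm P → P → Nm P → Prop) : ∀ᶠ g in aeM P, ∀ σ ∈ g.N,
    ∃ k, (∃ x ∈ g.N, W σ (g.pc k) x) ∨ ∀ q, q ≤ g.pc k → ∀ x, ¬ W σ q x := by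
  filter_upwards [ae_rq fun v => W (v 0)] with g hg σ hσ
  exact hg [σ] (by simpa using hσ)

theorem ae_rq2 (W : Nm P → Nm P → P → Nm P → Prop) : ∀ᶠ g in aeM P, ∀ σ ∈ g.N, ∀ τ ∈ g.N,
    ∃ k, (∃ x ∈ g.N, W σ τ (g.pc k) x) ∨ ∀ q, q ≤ g.pc k → ∀ x, ¬ W σ τ q x := by
  filter_upwards [ae_rq fun v => W (v 0) (v 1)] with g hg σ hσ τ hτ
  exact hg [σ, τ] (by simp [hσ, hτ])

theorem ae_rq3 (W : Nm P → Nm P → Nm P → P → Nm P → Prop) : ∀ᶠ g in aeM P, ∀ σ ∈ g.N,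
    ∀ τ ∈ g.N, ∀ ρ ∈ g.N,
    ∃ k, (∃ x ∈ g.N, W σ τ ρ (g.pc k) x) ∨ ∀ q, q ≤ g.pc k → ∀ x, ¬ W σ τ ρ q x := by
  filter_upwards [ae_rq fun v => W (v 0) (v 1) (v 2)] with g hg σ hσ τ hτ ρ hρ
  exact hg [σ, τ, ρ] (by simp [hσ, hτ, hρ])

/-- Almost all models are countable transitive models of ZFC. -/
theorem ae_zfc : ∀ᶠ g in aeM P, g.M.Countable ∧ IsTransModelZFC g.M := by
  filter_upwards [ae_cl1 (P := P) chN] with g hg
  exact ⟨g.g.countable_M, zfc_of_ch g.g hg⟩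

namespace GG

variable {g : GG P}

theorem pc_le {k l : ℕ} (h : k ≤ l) : g.pc l ≤ g.pc k := g.g.pc_le h

theorem mem_val {τ : Nm P} {x : ZFSet.{0}} :
    x ∈ g.val τ ↔ ∃ i : τ.Idx, τ.child i ∈ g.N ∧ (∃ k, g.pc k ≤ τ.cond i) ∧
      g.val (τ.child i) = x := g.g.mem_val

theorem val_mem {τ : Nm P} (h : τ ∈ g.N) : g.val τ ∈ g.M := ⟨τ, h, rfl⟩

theorem mem_M {x : ZFSet.{0}} : x ∈ g.M ↔ ∃ τ ∈ g.N, g.val τ = x := Iff.rfl

theorem fc_vm {σ τ : Nm P} (hσ : σ ∈ g.N) (hτ : τ ∈ g.N) :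
    g.fc (vm σ τ) ↔ g.val σ ∈ g.val τ := g.g.mem_iff hσ hτ

theorem fc_veq {σ τ : Nm P} (hσ : σ ∈ g.N) (hτ : τ ∈ g.N) :
    g.fc (veq σ τ) ↔ g.val σ = g.val τ := g.g.eq_iff hσ hτ

theorem truth (φ : Fml) {v : ℕ → Nm P} (hv : ∀ i, v i ∈ g.N) :
    (∃ k, Fc φ v (g.pc k)) ↔ Sat g.M φ (fun i => g.val (v i)) := g.g.truth φ hv

theorem fc_mono {U V : RO P} (h : U ≤ V) (hU : g.fc U) : g.fc V :=
  hU.imp fun _ hk => h _ hk

theorem fc_inf {U V : RO P} : g.fc (U ⊓ V) ↔ g.fc U ∧ g.fc V := by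
  constructor
  · rintro ⟨k, h1, h2⟩
    exact ⟨⟨k, h1⟩, ⟨k, h2⟩⟩
  · rintro ⟨⟨k, h1⟩, ⟨l, h2⟩⟩
    exact ⟨max k l, RO.mem_lower (g.pc_le (le_max_left _ _)) h1,
      RO.mem_lower (g.pc_le (le_max_right _ _)) h2⟩

theorem fc_top : g.fc ⊤ := ⟨0, RO.mem_top _⟩

theorem not_fc_bot : ¬ g.fc (⊥ : RO P) := fun ⟨_, h⟩ => RO.not_mem_bot _ h

theorem fc_mp {U V : RO P} (h : g.fc (U ⇨ V)) (hU : g.fc U) : g.fc V := by
  obtain ⟨k, h1, h2⟩ := fc_inf.2 ⟨h, hU⟩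
  exact ⟨k, RO.mem_himp.1 h1 _ le_rfl h2⟩

theorem not_fc_compl {U : RO P} (h : g.fc Uᶜ) : ¬ g.fc U := by
  intro hU
  obtain ⟨k, h1, h2⟩ := fc_inf.2 ⟨h, hU⟩
  exact RO.mem_compl.1 h1 _ le_rfl h2

end GG

/-- Values of countably many parameters are decided. -/
theorem ae_dec (F : (ℕ → Nm P) → RO P) : ∀ᶠ g in aeM P, ∀ t : List (Nm P),
    (∀ x ∈ t, x ∈ g.N) → g.fc (F (asg t)) ∨ g.fc (F (asg t))ᶜ := by
  filter_upwards [ae_gen fun v p => p ∈ F v] with g hg t ht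
  obtain ⟨k, hk | hk⟩ := hg t ht
  · exact Or.inl ⟨k, hk⟩
  · exact Or.inr ⟨k, RO.mem_compl.2 hk⟩

theorem ae_dec1 (F : Nm P → RO P) : ∀ᶠ g in aeM P, ∀ σ ∈ g.N, g.fc (F σ) ∨ g.fc (F σ)ᶜ := by
  filter_upwards [ae_dec fun v => F (v 0)] with g hg σ hσ
  exact hg [σ] (by simpa using hσ)

theorem ae_dec2 (F : Nm P → Nm P → RO P) :
    ∀ᶠ g in aeM P, ∀ σ ∈ g.N, ∀ τ ∈ g.N, g.fc (F σ τ) ∨ g.fc (F σ τ)ᶜ := by
  filter_upwards [ae_dec fun v => F (v 0) (v 1)] with g hg σ hσ τ hτ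
  exact hg [σ, τ] (by simp [hσ, hτ])

theorem ae_dec3 (F : Nm P → Nm P → Nm P → RO P) :
    ∀ᶠ g in aeM P, ∀ σ ∈ g.N, ∀ τ ∈ g.N, ∀ ρ ∈ g.N, g.fc (F σ τ ρ) ∨ g.fc (F σ τ ρ)ᶜ := by
  filter_upwards [ae_dec fun v => F (v 0) (v 1) (v 2)] with g hg σ hσ τ hτ ρ hρ
  exact hg [σ, τ, ρ] (by simp [hσ, hτ, hρ])

/-- Witnesses of suprema, three parameters. -/
theorem ae_sup (F : (ℕ → Nm P) → Nm P → RO P) : ∀ᶠ g in aeM P, ∀ t : List (Nm P),
    (∀ x ∈ t, x ∈ g.N) → g.fc (⨆ x, F (asg t) x) → ∃ x ∈ g.N, g.fc (F (asg t) x) := by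
  filter_upwards [ae_rq fun v (p : P) x => p ∈ F v x] with g hg t ht ⟨l, hl⟩
  obtain ⟨k, hk | hk⟩ := hg t ht
  · obtain ⟨x, hx, hx'⟩ := hk
    exact ⟨x, hx, k, hx'⟩
  · exfalso
    obtain ⟨r, hr, x, hx⟩ := RO.mem_iSup.1 hl (g.pc (max k l)) (g.pc_le (le_max_right _ _))
    exact hk r (hr.trans (g.pc_le (le_max_left _ _))) x hx

end Pool.Agent.Helper63.WR
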