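import Pool.Agent.Helper23.XB.Defs

/-!
# Project WR: the ground model

`K` is a well-order of inaccessible type with unboundedly many measurable elements; `w` is its first
uncountable element.
-/

set_option autoImplicit false

namespace Pool.Agent.Helper63.WR

open Cardinal Filter Set Pool.Agent.Helper23.XB

universe u

/-- The ground data. -/
structure Gd (K : Type u) [LinearOrder K] where
  /-- the least element -/
  z : K
  /-- the first uncountable element -/
  w : K
  /-- the measurable elements -/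
  Ms : Set K
  /-- normal ultrafilters -/
  U : K → Ultrafilter K
  z_le : ∀ i, z ≤ i
  w_cnt : ∀ i < w, (Iio i).Countable
  w_unc : ¬ (Iio w).Countable
  w_lt : ∀ l ∈ Ms, w < l
  above : ∀ l ∈ Ms, ∀ i < l, ∀ᶠ a in (U l : Filter K), i < a ∧ a < l
  inter : ∀ l ∈ Ms, ∀ A : ℕ → Set K, (∀ n, A n ∈ U l) → (⋂ n, A n) ∈ U l
  normal : ∀ l ∈ Ms, ∀ f : K → K, (∀ᶠ a in (U l : Filter K), f a < a) →
    ∃ y, ∀ᶠ a in (U l : Filter K), f a = y
  strong : ∀ l ∈ Ms, ∀ i < l, #(Set (Iio i)) < #(Iio l)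
  unb : ∀ i, ∃ l ∈ Ms, i < l

/-- The set `A` has the order type of the initial segment below `r`. -/
def IsOt {K : Type u} [LinearOrder K] (A : Set K) (r : K) : Prop := Nonempty (Iio r ≃o A)

section

variable {K : Type u} [LinearOrder K] (G : Gd K)

open Classical in
/-- The order type of `A`. -/
noncomputable def Gd.ot (A : Set K) : K := if h : ∃ r, IsOt A r then h.choose else G.z

/-- The limits of measurables. -/
def Gd.J : Set K := {b | G.w < b ∧ ∀ x < b, ∃ l ∈ G.Ms, x < l ∧ l < b}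

/-- The least measurable above `x`. -/
noncomputable def Gd.nm [WellFoundedLT K] (x : K) : K :=
  WellFounded.min wellFounded_lt {l | l ∈ G.Ms ∧ x < l}
    (let ⟨l, h, h'⟩ := G.unb x; ⟨l, h, h'⟩)

/-- The least `y` such that there is no measurable between `y` and `x`. -/
noncomputable def Gd.sm [WellFoundedLT K] (x : K) : K :=
  WellFounded.min wellFounded_lt {y | ∀ l ∈ G.Ms, ¬ (y < l ∧ l < x)}
    ⟨x, fun _ _ h => lt_asymm h.1 h.2⟩

/-- `C` is a closed unbounded subset of `w`. -/
structure Gd.Club (C : Set K) : Prop where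
  sub : ∀ i ∈ C, i < G.w
  unb : ∀ i < G.w, ∃ j ∈ C, i < j
  closed : ∀ i < G.w, G.z < i → (∀ x < i, ∃ y ∈ C, x < y ∧ y < i) → i ∈ C

/-- `T` is stationary in `w`. -/
def Gd.Stat (T : Set K) : Prop := ∀ C, G.Club C → ∃ i ∈ C, i ∈ T

/-- The set `A` is good for `T` up to `al`. -/
def Gd.Good (T : Set K) (A : Set K) (al : K) : Prop :=
  ∀ b ∈ A, b ∈ G.J → b ≤ al → G.ot (A ∩ Iio b) ∈ T

/-- A universe for the models. -/
structure Un (K X : Type u) where
  io : K → X
  lm : X → K
  lm_io : ∀ i, lm (io i) = i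
  pr : X → X → X
  fs : X → X
  sn : X → X
  fs_pr : ∀ x y, fs (pr x y) = x
  sn_pr : ∀ x y, sn (pr x y) = y
  /-- the basic functions -/
  bs : ℕ → X → X

/-- Codes of functions. -/
inductive Cd : Type
  | b (n : ℕ)
  | f
  | s
  | cm (c d : Cd)
  | pc (c d : Cd)
  | mc (c : Cd)
  | nm
  | sm

variable {X : Type u}

open Classical in
/-- The constant value of `f` for the ultrafilter of `l`. -/
noncomputable def Gd.MC (l : K) (f : K → X) (d : X) : X :=
  if h : ∃ y, ∀ᶠ a in (G.U l : Filter K), f a = y then h.choose else d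

/-- The functions of the codes. -/
noncomputable def ev [WellFoundedLT K] (V : Un K X) : Cd → X → X
  | .b n => V.bs n
  | .f => V.fs
  | .s => V.sn
  | .cm c d => fun x => ev V c (ev V d x)
  | .pc c d => fun x => V.pr (ev V c x) (ev V d x)
  | .mc c => fun x => G.MC (V.lm (V.fs x)) (fun a => ev V c (V.pr (V.io a) (V.sn x))) x
  | .nm => fun x => V.io (G.nm (V.lm x))
  | .sm => fun x => V.io (G.sm (V.lm x))

/-- Models. -/
structure Mdl [WellFoundedLT K] (V : Un K X) where
  s : Set X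
  cnt : s.Countable
  pr : ∀ x ∈ s, ∀ y ∈ s, V.pr x y ∈ s
  cd : ∀ (c : Cd), ∀ x ∈ s, ev G V c x ∈ s

variable {G} [WellFoundedLT K] {V : Un K X}

/-- The elements of `K` in the model. -/
def Mdl.o (N : Mdl G V) : Set K := {i | V.io i ∈ N.s}

/-- `N'` extends `N`, with the same elements up to `al`. -/
def Mdl.Le (al : K) (N N' : Mdl G V) : Prop := N.s ⊆ N'.s ∧ ∀ i ≤ al, i ∈ N'.o → i ∈ N.o

/-- The conclusion of the steering lemma up to `mu`. -/
def Steer (G : Gd K) (V : Un K X) (T : Set K) (mu : K) : Prop :=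
  ∀ (N : Mdl G V) (al : K), G.w ≤ al → al ∈ N.o → al ≤ mu → mu ∈ N.o → G.Good T N.o al →
    ∃ N' : Mdl G V, Mdl.Le al N N' ∧ G.Good T N'.o mu

end

end Pool.Agent.Helper63.WR
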