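import Pool.Agent.Helper63.WR.DefsA

/-!
# Project WR: labels, the forcing, certificates
-/

set_option autoImplicit false

namespace Pool.Agent.Helper63.WR

open Cardinal Filter Set Pool.Agent.Helper23.XB Pool.Agent.Helper33.HM

universe u

/-- The nodes of the digraph which codes the well-order. -/
inductive Nd (K : Type u) : Type u
  | P (i : Bool)
  | S (i : Fin 3)
  | m (n : ℕ)
  | c (n : ℕ)
  | u (g : K)
  | b (g : K) (n : ℕ)
  | e (g : K)
  | d (g h : K)

section

variable {K : Type u} [LinearOrder K]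

/-- The components of the node are below `i`. -/
def Nd.Bel (i : K) : Nd K → Prop
  | .u g => g < i
  | .b g _ => g < i
  | .e g => g < i
  | .d g h => g < i ∧ h < i
  | _ => True

open Classical in
/-- The two successors of a node, for a sequence `r` of reals. -/
noncomputable def gN (r : K → Set ℕ) (j : Bool) : Nd K → Nd K
  | .P i => .P (!i)
  | .S i => .S (i + 1)
  | .m 0 => if j then .S 0 else .P false
  | .m (n + 1) => if j then .m n else .P false
  | .c n => if j then .m n else .S 0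
  | .u _ => .m 0
  | .b g n => if j then .u g else if n ∈ r g then .m n else .c n
  | .e g => if j then .u g else .S 0
  | .d g h => if g < h then (if j then .u h else .e g) else .P false

/-- Labels. -/
abbrev Lab (K : Type u) : Type u := Nd K × Bool

/-- The two successors of a label. -/
noncomputable def gL (r : K → Set ℕ) (j : Bool) : Lab K → Lab K
  | (x, true) => (x, false)
  | (x, false) => (gN r j x, false)

/-- The labels of the countable ordinals. -/
structure Lb (G : Gd K) where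
  t : K → Lab K
  c : K → Bool
  /-- the codes of the labels -/
  cd : Lab K → K
  bel : ∀ x < G.w, (t x).1.Bel x
  stat : ∀ (u : Lab K) (j : Bool), u.1.Bel G.w → G.Stat {x | t x = u ∧ c x = j}
  cd_lt : ∀ u : Lab K, u.1.Bel G.w → cd u < G.w
  cd_inj : ∀ u v : Lab K, u.1.Bel G.w → v.1.Bel G.w → cd u = cd v → u = v
  cd_m : ∀ n : ℕ, (Iio (cd (.m n, false))).encard = n

variable {G : Gd K}

/-- The target of the edge of `x`. -/
noncomputable def Lb.s (L : Lb G) (r : K → Set ℕ) (x : K) : Lab K := gL r (L.c x) (L.t x)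

/-- Conditions. -/
structure Cnd (L : Lb G) where
  δ : K
  r : K → Set ℕ
  a : Set K
  π : K → K → K
  D : K → Set K
  δ_lt : δ < G.w
  inj : ∀ i < δ, ∀ j < δ, r i = r j → i = j
  r_out : ∀ i, δ ≤ i → r i = ∅
  a_cnt : a.Countable
  a_J : ∀ b ∈ a, b ∈ G.J
  π_lt : ∀ b ∈ a, ∀ i < δ, π b i < b
  π_out : ∀ b i, b ∉ a ∨ δ ≤ i → π b i = G.z
  D_out : ∀ b, b ∉ a → D b = ∅
  D_le : ∀ b, ∀ x ∈ D b, x ≤ δ
  D_cl : ∀ b, ∀ i ≤ δ, G.z < i → (∀ x < i, ∃ y ∈ D b, x < y ∧ y < i) → i ∈ D b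
  rule : ∀ b, ∀ x ∈ D b, L.t (G.ot (π b '' Iio x)) = L.s r x

variable {L : Lb G}

instance : Preorder (Cnd L) where
  le q p := p.δ ≤ q.δ ∧ (∀ i < p.δ, q.r i = p.r i) ∧ p.a ⊆ q.a ∧
    (∀ b ∈ p.a, ∀ i < p.δ, q.π b i = p.π b i) ∧ ∀ b ∈ p.a, ∀ x ≤ p.δ, (x ∈ q.D b ↔ x ∈ p.D b)
  le_refl p := ⟨le_rfl, fun _ _ => rfl, Subset.rfl, fun _ _ _ _ => rfl, fun _ _ _ _ => Iff.rfl⟩
  le_trans q p s h h' := ⟨h'.1.trans h.1,
    fun i hi => (h.2.1 i (hi.trans_le h'.1)).trans (h'.2.1 i hi),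
    h'.2.2.1.trans h.2.2.1,
    fun b hb i hi => (h.2.2.2.1 b (h'.2.2.1 hb) i (hi.trans_le h'.1)).trans (h'.2.2.2.1 b hb i hi),
    fun b hb x hx => (h.2.2.2.2 b (h'.2.2.1 hb) x (hx.trans h'.1)).trans (h'.2.2.2.2 b hb x hx)⟩

theorem Gd.z_lt_w (G : Gd K) : G.z < G.w := by
  refine lt_of_le_of_ne (G.z_le _) fun h => G.w_unc ?_
  rw [← h]
  convert Set.countable_empty
  ext i
  simp only [mem_Iio, mem_empty_iff_false, iff_false, not_lt]
  exact G.z_le i

instance : OrderTop (Cnd L) where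
  top :=
    { δ := G.z, r := fun _ => ∅, a := ∅, π := fun _ _ => G.z, D := fun _ => ∅
      δ_lt := G.z_lt_w
      inj := fun i hi => absurd hi (not_lt.2 (G.z_le i))
      r_out := fun _ _ => rfl
      a_cnt := countable_empty
      a_J := fun _ h => h.elim
      π_lt := fun _ h => h.elim
      π_out := fun _ _ _ => rfl
      D_out := fun _ _ => rfl
      D_le := fun _ _ h => h.elim
      D_cl := fun _ _ hi hz => absurd (hz.trans_le hi) (lt_irrefl _)
      rule := fun _ _ h => h.elim }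
  le_top _ := ⟨G.z_le _, fun i hi => absurd hi (not_lt.2 (G.z_le i)), empty_subset _,
    fun _ h => h.elim, fun _ h => h.elim⟩

open Classical in
/-- The restriction to the coordinates below `nu`. -/
noncomputable def Cnd.rs (p : Cnd L) (nu : K) : Cnd L where
  δ := p.δ
  r := p.r
  a := p.a ∩ Iio nu
  π b i := if b < nu then p.π b i else G.z
  D b := if b < nu then p.D b else ∅
  δ_lt := p.δ_lt
  inj := p.inj
  r_out := p.r_out
  a_cnt := p.a_cnt.mono inter_subset_left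
  a_J b hb := p.a_J b hb.1
  π_lt b hb i hi := by rw [if_pos (show b < nu from hb.2)]; exact p.π_lt b hb.1 i hi
  π_out b i h := by
    by_cases hb : b < nu
    · rw [if_pos hb]
      exact p.π_out b i (h.imp (fun h h' => h ⟨h', hb⟩) id)
    · rw [if_neg hb]
  D_out b h := by
    by_cases hb : b < nu
    · rw [if_pos hb]
      exact p.D_out b fun h' => h ⟨h', hb⟩
    · rw [if_neg hb]
  D_le b x hx := by
    by_cases hb : b < nu
    · rw [if_pos hb] at hx
      exact p.D_le b x hx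
    · rw [if_neg hb] at hx
      exact hx.elim
  D_cl b i hi hz h := by
    by_cases hb : b < nu
    · rw [if_pos hb] at h ⊢
      exact p.D_cl b i hi hz h
    · rw [if_neg hb] at h
      obtain ⟨y, hy, -⟩ := h _ hz
      exact hy.elim
  rule b x hx := by
    by_cases hb : b < nu
    · rw [if_pos hb] at hx
      have h : (fun i => if b < nu then p.π b i else G.z) = p.π b := by
        funext i
        rw [if_pos hb]
      rw [h]
      exact p.rule b x hx
    · rw [if_neg hb] at hx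
      exact hx.elim

/-- The conditions with support below `nu`. -/
def Sp (L : Lb G) (nu : K) : Set (Cnd L) := {p | p.a ⊆ Iio nu}

end

/-! ### Boolean valued functions and certificates -/

section

variable {K : Type u} [LinearOrder K] {P : Type u} [Preorder P]

/-- `p` forces that `f` is a function from `A` to `B`. -/
structure FnB (p : P) (A B : Set K) (f : K → K → RO P) : Prop where
  tot : ∀ x ∈ A, ∀ q ≤ p, ∃ q' ≤ q, ∃ y ∈ B, q' ∈ f x y
  fn : ∀ x ∈ A, ∀ y ∈ B, ∀ y' ∈ B, ∀ q ≤ p, q ∈ f x y → q ∈ f x y' → y = y'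

/-- `q` forces that `π` maps `w` onto `b` and `D` is a club of `w` with the rule for `t`, `s`. -/
structure Wit (G : Gd K) (t s : K → K → RO P) (b : K) (q : P) (π : K → K → RO P)
    (D : K → RO P) : Prop where
  fn : FnB q (Iio G.w) (Iio b) π
  onto : ∀ y < b, ∀ q' ≤ q, ∃ q'' ≤ q', ∃ x < G.w, q'' ∈ π x y
  unb : ∀ x < G.w, ∀ q' ≤ q, ∃ q'' ≤ q', ∃ y, x < y ∧ y < G.w ∧ q'' ∈ D y
  closed : ∀ i < G.w, G.z < i → ∀ q' ≤ q,
    (∀ x < i, ∀ q'' ≤ q', ∃ q₃ ≤ q'', ∃ y, x < y ∧ y < i ∧ q₃ ∈ D y) → q' ∈ D i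
  rule : ∀ x < G.w, ∀ q' ≤ q, q' ∈ D x → ∀ h : K → K, (∀ i < x, q' ∈ π i (h i)) →
    ∀ r, IsOt (h '' Iio x) r → ∀ y < G.w, q' ∈ s x y → q' ∈ t r y

/-- `p` forces that `t, s, E` are a certificate. -/
structure Cert (G : Gd K) (p : P) (t s : K → K → RO P) (E : K → RO P) : Prop where
  t_fn : FnB p (Iio G.w) (Iio G.w) t
  s_fn : FnB p (Iio G.w) (Iio G.w) s
  unb : ∀ x, ∀ q ≤ p, ∃ q' ≤ q, ∃ y, x < y ∧ q' ∈ E y
  closed : ∀ i, G.z < i → ∀ q ≤ p,
    (∀ x < i, ∀ q' ≤ q, ∃ q'' ≤ q', ∃ y, x < y ∧ y < i ∧ q'' ∈ E y) → q ∈ E i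
  wit : ∀ b, ∀ q ≤ p, q ∈ E b → ∃ q' ≤ q, ∃ (π : K → K → RO P) (D : K → RO P),
    Wit G t s b q' π D

end

end Pool.Agent.Helper63.WR
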