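import Pool.Agent.Helper63.WR.DefsB
import Pool.Agent.Helper63.WR.Final
import Pool.Agent.Helper23.XB.DefsE

/-!
# Project WR: digraphs, certificates in transitive sets
-/

set_option autoImplicit false

namespace Pool.Agent.Helper63.WR

open Cardinal Filter Set Pool.Agent.Helper23.XB Pool.Agent.Helper33.HM Pool.Agent.Helper33.HMG
open Pool.Agent.Helper87.Sym (Fml cons Sat)

universe u

/-! ### Digraphs -/

section Graph

variable {α : Type u} (E : α → α → Prop) (nn : ℕ → α)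

def EP (x : α) : Prop := ∃ y, E x y ∧ E y x

def ES (x : α) : Prop := ∃ y z, E x y ∧ E y z ∧ E z x

def EL (u v : α) : Prop := ∃ d e s, E d v ∧ E d e ∧ E e u ∧ E e s ∧ ES E s

def E1 (u n : α) : Prop := ∃ b, E b u ∧ E b n

def E0 (u n : α) : Prop := ∃ b c s, E b u ∧ E b c ∧ E c n ∧ E c s ∧ ES E s

def ESame (u v : α) : Prop :=
  E u (nn 0) ∧ E v (nn 0) ∧ ∀ n, (E1 E u (nn n) ∧ E1 E v (nn n)) ∨ (E0 E u (nn n) ∧ E0 E v (nn n))

/-- The axioms of the digraphs. -/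
structure EAx : Prop where
  a0 : ∀ x y y', E x y → EP E y → E x y' → ES E y' → x = nn 0
  a1 : ∀ n x y, E x (nn n) → E x y → EP E y → x = nn (n + 1)
  a2 : ∀ u v u' v', EL E u v → EL E u' v' → ESame E nn u v' → ESame E nn v u' → False

/-- The node `u` codes the real `x`. -/
def ECod (u : α) (x : Set ℕ) : Prop :=
  E u (nn 0) ∧ ∀ n, (n ∈ x → E1 E u (nn n)) ∧ (n ∉ x → E0 E u (nn n))

def ETh (x y : Set ℕ) : Prop := ∃ u v, EL E u v ∧ ECod E nn u x ∧ ECod E nn v y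

end Graph

/-! ### Certificates in a transitive set -/

/-- The natural number `n`. -/
noncomputable def nz (n : ℕ) : ZFSet.{0} := ZFSet.mk (PSet.ofNat n)

/-- The edges of the digraph of `t, s`. -/
def Ed (w1 t s : ZFSet.{0}) (a b : ZFSet.{0}) : Prop :=
  ∃ x ∈ w1, ZFSet.pair x a ∈ t ∧ ZFSet.pair x b ∈ s

/-- `f` is the increasing enumeration of the image of `x` under the function `π` to `b`. -/
structure IsEnum (r b x π f : ZFSet.{0}) : Prop where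
  func : ZFSet.IsFunc r b f
  mono : ∀ i j y z, i ∈ j → ZFSet.pair i y ∈ f → ZFSet.pair j z ∈ f → y ∈ z
  range : ∀ z, (∃ i, ZFSet.pair i z ∈ f) ↔ ∃ i ∈ x, ZFSet.pair i z ∈ π

/-- The witness `π, D` at `b`. -/
structure IsWitIn (A : Set ZFSet.{0}) (w1 t s b π D : ZFSet.{0}) : Prop where
  onto : Onto w1 b π
  sub : D ⊆ w1
  unb : ∀ x ∈ w1, ∃ y ∈ D, x ∈ y
  closed : ∀ i ∈ w1, i ≠ ∅ → (∀ x ∈ i, ∃ y ∈ D, x ∈ y ∧ y ∈ i) → i ∈ D
  rule : ∀ x ∈ D, ∃ r ∈ w1, ∃ f ∈ A, IsEnum r b x π f ∧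
    ∃ y, ZFSet.pair r y ∈ t ∧ ZFSet.pair x y ∈ s

/-- `t, s, E` are a certificate in `A`. -/
structure IsCertIn (A : Set ZFSet.{0}) (w1 w2 t s E : ZFSet.{0}) : Prop where
  t_fn : ZFSet.IsFunc w1 w1 t
  s_fn : ZFSet.IsFunc w1 w1 s
  sub : E ⊆ w2
  unb : ∀ x ∈ w2, ∃ y ∈ E, x ∈ y
  closed : ∀ i ∈ w2, i ≠ ∅ → (∀ x ∈ i, ∃ y ∈ E, x ∈ y ∧ y ∈ i) → i ∈ E
  wit : ∀ b ∈ E, ∃ π ∈ A, ∃ D ∈ A, IsWitIn A w1 t s b π D

/-- The set of natural numbers of `x`. -/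
def zs (x : ZFSet.{0}) : Set ℕ := {n | nz n ∈ x}

/-- `x` is less than `y` according to some certificate in `A`. -/
def LessIn (A : Set ZFSet.{0}) (x y w2 : ZFSet.{0}) : Prop :=
  x ⊆ ZFSet.omega ∧ y ⊆ ZFSet.omega ∧ ∃ w1 ∈ A, w1 ∈ w2 ∧
    (∀ a ∈ w1, a = ∅ ∨ ∃ f ∈ A, Onto ZFSet.omega a f) ∧
    ∃ t ∈ A, ∃ s ∈ A, ∃ E ∈ A, IsCertIn A w1 w2 t s E ∧ EAx (Ed w1 t s) nz ∧
      ETh (Ed w1 t s) nz (zs x) (zs y)

/-- The relation defined by the Sigma_1 formula. -/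
def LessS (M : Set ZFSet.{0}) (x y w2 : ZFSet.{0}) : Prop :=
  ∃ A ∈ M, A.IsTransitive ∧ x ∈ A ∧ y ∈ A ∧ w2 ∈ A ∧ ZFSet.omega ∈ A ∧
    LessIn {z | z ∈ A} x y w2

end Pool.Agent.Helper63.WR
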